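import Pool.Agent.K3h76.SB.StmB

/-! # Brick AUX (helper51) -/

set_option autoImplicit false

namespace Pool.Agent.K3h51.SB

open Pool.Agent.K3h76.SB Pool.Agent.K3h96.OS Finset PowerSeries Asymptotics Filter

theorem aux1 (B B' : ℝ) (D D' : ℕ) (f φ ψ : PowerSeries ℂ) (hB : 0 < B) (hBB : B < B')
    (h : Asy (gau D B) f φ ψ) : Asy (gau D' B') f 0 0 := by
  have hB' : 0 < B' := hB.trans hBB
  obtain ⟨C, hC, hb⟩ := h.bound (gauge_gau D hB)
  obtain ⟨K, θ', hK, h0', h1', hp⟩ := poly_geom (B / B') (by positivity)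
    (by rw [div_lt_one hB']; exact hBB) D
  refine Asy.of_negligible fun L => ?_
  refine negligible D' hB' (θ := θ') (C' := C * B ^ D * (2 * (D + 1)) ^ D * K) h0' h1' ?_ L
  intro k
  refine (hb k).trans ?_
  unfold gau
  have h2 := odf_le_pow D k
  have hk0 : (0 : ℝ) ≤ (k : ℝ) := Nat.cast_nonneg k
  have hD0 : (0 : ℝ) ≤ (D : ℝ) := Nat.cast_nonneg D
  have hn : (0 : ℝ) < odf k := by exact_mod_cast odf_pos k
  have h3 : ((2 : ℝ) * (k + D) + 1) ^ D ≤ (2 * (D + 1)) ^ D * ((k : ℝ) + 1) ^ D := by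
    rw [← mul_pow]
    refine pow_le_pow_left₀ (by positivity) ?_ D
    nlinarith [mul_nonneg hk0 hD0]
  have hBk : B ^ k = (B / B') ^ k * B' ^ k := by
    rw [← mul_pow]
    congr 1
    field_simp
  calc C * ((odf (k + D) : ℝ) * B ^ (k + D))
      ≤ C * (((2 * (k + D) + 1) ^ D * odf k) * B ^ (k + D)) :=
        mul_le_mul_of_nonneg_left (mul_le_mul_of_nonneg_right h2 (by positivity)) hC.le
    _ ≤ C * ((((2 * (D + 1)) ^ D * ((k : ℝ) + 1) ^ D) * odf k) * B ^ (k + D)) :=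
        mul_le_mul_of_nonneg_left (mul_le_mul_of_nonneg_right
          (mul_le_mul_of_nonneg_right h3 hn.le) (by positivity)) hC.le
    _ = C * B ^ D * (2 * (D + 1)) ^ D * (odf k * B' ^ k) * (((k : ℝ) + 1) ^ D * (B / B') ^ k) := by
        rw [pow_add, hBk]
        ring
    _ ≤ C * B ^ D * (2 * (D + 1)) ^ D * (odf k * B' ^ k) * (K * θ' ^ k) :=
        mul_le_mul_of_nonneg_left (hp k) (by positivity)
    _ = _ := by
        rw [mul_pow]
        ring

theorem factorial_le_odf (k : ℕ) : k.factorial ≤ odf k := by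
  induction k with
  | zero => simp [odf, Nat.doubleFactorial]
  | succ k ih =>
    rw [odf_succ, Nat.factorial_succ]
    exact Nat.mul_le_mul (by omega) ih

theorem aux2 (f : PowerSeries ℂ) (K R : ℝ) (hK : 0 ≤ K) (hR : 0 < R)
    (hf : ∀ k, ‖coeff k f‖ ≤ K * R ^ k) (B : ℝ) (D : ℕ) (hB : 0 < B) : Asy (gau D B) f 0 0 := by
  refine Asy.of_negligible fun L => ?_
  refine negligible D hB (θ := 1 / 2) (C' := K * Real.exp (2 * R / B)) (by norm_num)
    (by norm_num) ?_ L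
  intro k
  refine (hf k).trans ?_
  have h1 := Real.pow_div_factorial_le_exp (2 * R / B) (by positivity) k
  have hfac : (0 : ℝ) < k.factorial := by exact_mod_cast Nat.factorial_pos k
  rw [div_le_iff₀ hfac] at h1
  have h2 : (k.factorial : ℝ) ≤ odf k := by exact_mod_cast factorial_le_odf k
  have h3 : R ^ k = (2 * R / B) ^ k * (1 / 2 * B) ^ k := by
    rw [← mul_pow]
    congr 1
    field_simp
  have h4 : (2 * R / B) ^ k ≤ Real.exp (2 * R / B) * odf k :=
    h1.trans (mul_le_mul_of_nonneg_left h2 (Real.exp_pos _).le)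
  calc K * R ^ k = K * ((2 * R / B) ^ k * (1 / 2 * B) ^ k) := by rw [← h3]
    _ ≤ K * ((Real.exp (2 * R / B) * odf k) * (1 / 2 * B) ^ k) :=
        mul_le_mul_of_nonneg_left (mul_le_mul_of_nonneg_right h4 (by positivity)) hK
    _ = _ := by ring

theorem aux3 (w : ℕ → ℝ) (f g φ ψ : PowerSeries ℂ) (k₀ : ℕ)
    (h : ∀ k, k₀ ≤ k → coeff k f = coeff k g) (hf : Asy w f φ ψ) : Asy w g φ ψ := by
  intro L
  refine (hf L).congr' ?_ (EventuallyEq.refl _ _)
  filter_upwards [eventually_ge_atTop k₀] with k hk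
  rw [h k hk]

theorem neg_one_pow_aux {k l : ℕ} (h : l ≤ k) : (-1 : ℂ) ^ (k - l) * (-1) ^ l = (-1) ^ k := by
  rw [← pow_add, Nat.sub_add_cancel h]

theorem neg_one_pow_aux' {k l : ℕ} (h : l ≤ k) : (-1 : ℂ) ^ k * (-1) ^ (k - l) = (-1) ^ l := by
  rw [← neg_one_pow_aux h]
  have h1 : (-1 : ℂ) ^ (k - l) * (-1) ^ (k - l) = 1 := by
    rw [← mul_pow]
    norm_num
  calc (-1 : ℂ) ^ (k - l) * (-1) ^ l * (-1) ^ (k - l)
      = ((-1 : ℂ) ^ (k - l) * (-1) ^ (k - l)) * (-1) ^ l := by ring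
    _ = _ := by rw [h1, one_mul]

theorem aux4 (w : ℕ → ℝ) (f φ ψ : PowerSeries ℂ) (hf : Asy w f φ ψ) :
    Asy w (rescale (-1 : ℂ) f) (rescale (-1 : ℂ) ψ) (rescale (-1 : ℂ) φ) := by
  intro L
  have h1 : (fun k => (-1 : ℂ) ^ k * (coeff k f - mainPart w φ ψ L k)) =O[atTop]
      (fun k => w (k - L)) := by
    refine IsBigO.trans (IsBigO.of_bound 1 (Eventually.of_forall fun k => ?_)) (hf L)
    rw [norm_mul, norm_pow, norm_neg, norm_one, one_pow]
  refine h1.congr' ?_ (EventuallyEq.refl _ _)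
  filter_upwards [eventually_ge_atTop L] with k hk
  rw [coeff_rescale, mul_sub]
  congr 1
  unfold mainPart
  rw [mul_sum]
  refine sum_congr rfl fun l hl => ?_
  rw [mem_range] at hl
  have h2 := neg_one_pow_aux (k := k) (l := l) (by omega)
  have h3 := neg_one_pow_aux' (k := k) (l := l) (by omega)
  rw [coeff_rescale, coeff_rescale]
  calc (-1 : ℂ) ^ k * ((coeff l φ + (-1) ^ (k - l) * coeff l ψ) * (w (k - l) : ℂ))
      = ((-1 : ℂ) ^ k * coeff l φ + ((-1) ^ k * (-1) ^ (k - l)) * coeff l ψ) * (w (k - l) : ℂ) := by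
        ring
    _ = _ := by
        rw [h3, ← h2]
        ring

theorem gau_shift (D : ℕ) (B : ℝ) {k m : ℕ} (hk : D + m ≤ k) :
    gau D B (k - (D + m)) = gau 0 B (k - m) := by
  unfold gau
  have h1 : k - (D + m) + D = k - m + 0 := by omega
  rw [h1]

theorem aux5_main (B : ℝ) (D : ℕ) (φ ψ : PowerSeries ℂ) {M k : ℕ} (hk : D + M ≤ k) :
    mainPart (gau D B) (X ^ D * φ) (PowerSeries.C ((-1 : ℂ) ^ D) * X ^ D * ψ) (D + M) k =
      mainPart (gau 0 B) φ ψ M k := by
  unfold mainPart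
  rw [sum_range_add, sum_eq_zero, zero_add]
  · refine sum_congr rfl fun l hl => ?_
    rw [mem_range] at hl
    have h1 : coeff (D + l) (X ^ D * φ) = coeff l φ := by
      rw [add_comm D l, coeff_X_pow_mul]
    have h2 : coeff (D + l) (PowerSeries.C ((-1 : ℂ) ^ D) * X ^ D * ψ) =
        (-1) ^ D * coeff l ψ := by
      rw [mul_assoc, coeff_C_mul, add_comm D l, coeff_X_pow_mul]
    rw [h1, h2, gau_shift D B (by omega : D + l ≤ k)]
    have h3 : (-1 : ℂ) ^ (k - (D + l)) * (-1) ^ D = (-1) ^ (k - l) := by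
      rw [← pow_add]
      congr 1
      omega
    calc (coeff l φ + (-1) ^ (k - (D + l)) * ((-1) ^ D * coeff l ψ)) * (gau 0 B (k - l) : ℂ)
        = (coeff l φ + ((-1) ^ (k - (D + l)) * (-1) ^ D) * coeff l ψ) * (gau 0 B (k - l) : ℂ) := by
          ring
      _ = _ := by rw [h3]
  · intro l hl
    rw [mem_range] at hl
    have h1 : coeff l (X ^ D * φ) = 0 := by
      rw [coeff_X_pow_mul', if_neg (by omega)]
    have h2 : coeff l (PowerSeries.C ((-1 : ℂ) ^ D) * X ^ D * ψ) = 0 := by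
      rw [mul_assoc, coeff_C_mul, coeff_X_pow_mul', if_neg (by omega), mul_zero]
    rw [h1, h2]
    ring

theorem aux5 (B : ℝ) (D : ℕ) (f φ ψ : PowerSeries ℂ) (hB : 0 < B) (hf : Asy (gau 0 B) f φ ψ) :
    Asy (gau D B) f (X ^ D * φ) (PowerSeries.C ((-1 : ℂ) ^ D) * X ^ D * ψ) := by
  have hD : ∀ M, (fun k => coeff k f - mainPart (gau D B) (X ^ D * φ)
      (PowerSeries.C ((-1 : ℂ) ^ D) * X ^ D * ψ) (D + M) k) =O[atTop]
      (fun k => gau D B (k - (D + M))) := by
    intro M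
    refine (hf M).congr' ?_ ?_
    · filter_upwards [eventually_ge_atTop (D + M)] with k hk
      rw [aux5_main B D φ ψ hk]
    · filter_upwards [eventually_ge_atTop (D + M)] with k hk
      rw [gau_shift D B hk]
  intro L
  by_cases hL : D ≤ L
  · obtain ⟨M, rfl⟩ := Nat.exists_eq_add_of_le hL
    exact hD M
  · push Not at hL
    have h1 := (hD 0).trans ((gauge_gau D hB).isBigO_le (L := L) (M := D + 0) (by omega))
    have h2 := mainPart_diff (gauge_gau D hB) (X ^ D * φ)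
      (PowerSeries.C ((-1 : ℂ) ^ D) * X ^ D * ψ) (L := L) (M := D + 0) (by omega)
    refine (h1.add h2).congr_left fun k => ?_
    ring

theorem t_AUX : S_AUX :=
  ⟨fun B B' D D' f φ ψ hB hBB h => aux1 B B' D D' f φ ψ hB hBB h,
    fun f K R hK hR hf B D hB => aux2 f K R hK hR hf B D hB,
    fun w f g φ ψ k₀ h hf => aux3 w f g φ ψ k₀ h hf,
    fun w f φ ψ hf => aux4 w f φ ψ hf,
    fun B D f φ ψ hB hf => aux5 B D f φ ψ hB hf⟩

end Pool.Agent.K3h51.SB
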