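import Pool.Agent.K3h76.SB.StmB

/-! # Brick BIN (helper51) -/

set_option autoImplicit false

namespace Pool.Agent.K3h51.SB

open Pool.Agent.K3h76.SB Pool.Agent.K3h96.OS

theorem t_BIN : S_BIN := by
  intro k q t
  induction t with
  | zero =>
    intro _ _
    simp
  | succ t ih =>
    intro htq hqk
    have hI := ih (by omega) hqk
    obtain ⟨m, rfl⟩ := Nat.exists_eq_add_of_le htq
    obtain ⟨n, rfl⟩ := Nat.exists_eq_add_of_le hqk
    have e1 : (2 * (t + 1 + m) + 1).choose (2 * (t + 1)) * (2 * t + 2) * (2 * t + 1) =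
        (2 * (t + 1 + m) + 1).choose (2 * t) * (2 * m + 3) * (2 * m + 2) := by
      have a1 := Nat.choose_succ_right_eq (2 * (t + 1 + m) + 1) (2 * t + 1)
      have a2 := Nat.choose_succ_right_eq (2 * (t + 1 + m) + 1) (2 * t)
      have a3 : 2 * (t + 1 + m) + 1 - (2 * t + 1) = 2 * m + 2 := by omega
      have a4 : 2 * (t + 1 + m) + 1 - 2 * t = 2 * m + 3 := by omega
      rw [a3] at a1
      rw [a4] at a2
      have a5 : 2 * (t + 1) = 2 * t + 1 + 1 := by ring
      have a6 : 2 * t + 2 = 2 * t + 1 + 1 := by ring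
      rw [a5, a6, a1]
      calc (2 * (t + 1 + m) + 1).choose (2 * t + 1) * (2 * m + 2) * (2 * t + 1)
          = ((2 * (t + 1 + m) + 1).choose (2 * t + 1) * (2 * t + 1)) * (2 * m + 2) := by ring
        _ = _ := by rw [a2]
    have e2 : Nat.doubleFactorial (2 * (t + 1) - 1) =
        (2 * t + 1) * Nat.doubleFactorial (2 * t - 1) := by
      rcases t with _ | t
      · simp [Nat.doubleFactorial]
      · have b1 : 2 * (t + 1 + 1) - 1 = (2 * (t + 1) - 1) + 2 := by omega
        have b2 : 2 * (t + 1) - 1 + 2 = 2 * (t + 1) + 1 := by omega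
        rw [b1, Nat.doubleFactorial_add_two, b2]
    have e3 : odf (t + 1 + m + n - t) = (2 * (m + n) + 3) * odf (t + 1 + m + n - (t + 1)) := by
      have c1 : t + 1 + m + n - t = (m + n) + 1 := by omega
      have c2 : t + 1 + m + n - (t + 1) = m + n := by omega
      rw [c1, c2, odf_succ]
    have e4 : (t + 1 + m + 1).choose (t + 1) * (t + 1) = (t + 1 + m + 1).choose t * (m + 2) := by
      have d1 := Nat.choose_succ_right_eq (t + 1 + m + 1) t
      have d2 : t + 1 + m + 1 - t = m + 2 := by omega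
      rw [d2] at d1
      exact d1
    rw [e3] at hI
    rw [e2]
    generalize (2 * (t + 1 + m) + 1).choose (2 * (t + 1)) = A' at *
    generalize (2 * (t + 1 + m) + 1).choose (2 * t) = A at *
    generalize Nat.doubleFactorial (2 * t - 1) = F at *
    generalize odf (t + 1 + m + n - (t + 1)) = G at *
    generalize odf (t + 1 + m + n) = H at *
    generalize (t + 1 + m + 1).choose (t + 1) = C' at *
    generalize (t + 1 + m + 1).choose t = C at *
    rw [pow_succ, pow_succ]
    generalize (2 * (t + 1 + m + n) + 1) ^ t = P at *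
    generalize (2 * (t + 1 + m)) ^ t = Q at *
    have hpos : 0 < (2 * t + 2) * (2 * (m + n) + 3) := by positivity
    refine Nat.le_of_mul_le_mul_right ?_ hpos
    have f1 : A' * ((2 * t + 1) * F) * G * (P * (2 * (t + 1 + m + n) + 1)) *
        ((2 * t + 2) * (2 * (m + n) + 3)) =
        (A * F * ((2 * (m + n) + 3) * G) * P) * ((2 * m + 3) * (2 * m + 2) *
          (2 * (t + 1 + m + n) + 1)) := by
      calc _ = (A' * (2 * t + 2) * (2 * t + 1)) * F * G * P * (2 * (t + 1 + m + n) + 1) *
            (2 * (m + n) + 3) := by ring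
        _ = _ := by rw [e1]; ring
    have f2 : C' * (Q * (2 * (t + 1 + m))) * H * ((2 * t + 2) * (2 * (m + n) + 3)) =
        (C * Q * H) * (2 * (m + 2) * (2 * (t + 1 + m)) * (2 * (m + n) + 3)) := by
      calc _ = (C' * (t + 1)) * Q * H * (2 * (2 * (t + 1 + m)) * (2 * (m + n) + 3)) := by ring
        _ = _ := by rw [e4]; ring
    rw [f1, f2]
    refine Nat.mul_le_mul hI ?_
    have g1 : 2 * m + 3 ≤ 2 * (m + 2) := by omega
    have g2 : (2 * m + 2) * (2 * (t + 1 + m + n) + 1) ≤ (2 * (t + 1 + m)) * (2 * (m + n) + 3) := by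
      nlinarith [Nat.zero_le (t * n), Nat.zero_le (t * m)]
    calc (2 * m + 3) * (2 * m + 2) * (2 * (t + 1 + m + n) + 1)
        = (2 * m + 3) * ((2 * m + 2) * (2 * (t + 1 + m + n) + 1)) := by ring
      _ ≤ 2 * (m + 2) * ((2 * (t + 1 + m)) * (2 * (m + n) + 3)) := Nat.mul_le_mul g1 g2
      _ = _ := by ring

end Pool.Agent.K3h51.SB
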