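import Pool.Agent.K3h76.SB.StmA

/-! # Brick LEAD (helper51) -/

set_option autoImplicit false

namespace Pool.Agent.K3h51.SB

open Pool.Agent.K3h76.SB Real Filter Topology

theorem exp_tend {l L : ℝ} (h : l < L) :
    Tendsto (fun s : ℝ => exp (l * s) * exp (-(L * s))) atTop (𝓝 0) := by
  have h1 : Tendsto (fun s : ℝ => exp (-((L - l) * s))) atTop (𝓝 0) := by
    apply tendsto_exp_neg_atTop_nhds_zero.comp
    exact tendsto_id.const_mul_atTop (by linarith)
  refine h1.congr fun s => ?_
  rw [← exp_add]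
  congr 1
  ring

theorem tend0 {l L C : ℝ} {f : ℝ → ℝ} (h : l < L)
    (hf : ∀ s, 0 ≤ s → |f s| ≤ C * exp (-(L * s))) :
    Tendsto (fun s : ℝ => exp (l * s) * f s) atTop (𝓝 0) := by
  have h1 := (exp_tend h).const_mul C
  rw [mul_zero] at h1
  refine squeeze_zero_norm' ?_ h1
  filter_upwards [eventually_ge_atTop (0 : ℝ)] with s hs
  rw [norm_mul, Real.norm_eq_abs, Real.norm_eq_abs, abs_of_pos (exp_pos _)]
  have := mul_le_mul_of_nonneg_left (hf s hs) (exp_pos (l * s)).le
  linarith

theorem tend1 (c l : ℝ) :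
    Tendsto (fun s : ℝ => exp (l * s) * (c * exp (-(l * s)))) atTop (𝓝 c) := by
  have h1 : (fun s : ℝ => exp (l * s) * (c * exp (-(l * s)))) = fun _ => c := by
    funext s
    have h2 : exp (l * s) * exp (-(l * s)) = 1 := by
      rw [← exp_add, add_neg_cancel, exp_zero]
    calc exp (l * s) * (c * exp (-(l * s))) = c * (exp (l * s) * exp (-(l * s))) := by ring
      _ = c := by rw [h2, mul_one]
  rw [h1]
  exact tendsto_const_nhds

theorem zero_of {c l L L' C : ℝ} {f f' : ℝ → ℝ} (h : l < L) (h' : l < L')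
    (hf : ∀ s, 0 ≤ s → |f s| ≤ C * exp (-(L * s))) (hf' : Tendsto
      (fun s : ℝ => exp (l * s) * f' s) atTop (𝓝 0))
    (heq : ∀ s, 0 ≤ s → c * exp (-(l * s)) + f s = f' s) : c = 0 := by
  have h1 := (tend1 c l).add (tend0 h hf)
  rw [add_zero] at h1
  refine tendsto_nhds_unique (h1.congr' ?_) hf'
  filter_upwards [eventually_ge_atTop (0 : ℝ)] with s hs
  rw [← heq s hs]
  ring

theorem t_LEAD : S_LEAD := by
  constructor
  · intro c c' l l' L L' C f f' hc hc' hl hl' hf hf' heq
    have aux : ∀ (c c' l l' L L' : ℝ) (f f' : ℝ → ℝ), l < L → l' < L' →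
        (∀ s, 0 ≤ s → |f s| ≤ C * exp (-(L * s))) → (∀ s, 0 ≤ s → |f' s| ≤ C * exp (-(L' * s))) →
        (∀ s, 0 ≤ s → c * exp (-(l * s)) + f s = c' * exp (-(l' * s)) + f' s) → l < l' →
        c = 0 := by
      intro c c' l l' L L' f f' hl hl' hf hf' heq hll
      have h1 : Tendsto (fun s : ℝ => exp (l * s) * (c' * exp (-(l' * s)) + f' s)) atTop
          (𝓝 0) := by
        have h2 := ((exp_tend hll).const_mul c').add (tend0 (hll.trans hl') hf')
        rw [mul_zero, add_zero] at h2
        refine h2.congr fun s => ?_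
        ring
      exact zero_of hl (hll.trans hl') hf h1 heq
    rcases lt_trichotomy l l' with h | h | h
    · exact absurd (aux c c' l l' L L' f f' hl hl' hf hf' heq h) hc
    · subst h
      refine ⟨rfl, ?_⟩
      have h1 := (tend1 c l).add (tend0 hl hf)
      have h2 := (tend1 c' l).add (tend0 hl' hf')
      rw [add_zero] at h1 h2
      refine tendsto_nhds_unique (h1.congr' ?_) h2
      filter_upwards [eventually_ge_atTop (0 : ℝ)] with s hs
      have h3 := heq s hs
      calc exp (l * s) * (c * exp (-(l * s))) + exp (l * s) * f s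
          = exp (l * s) * (c * exp (-(l * s)) + f s) := by ring
        _ = _ := by rw [h3]; ring
    · exact absurd (aux c' c l' l L' L f' f hl' hl hf' hf (fun s hs => (heq s hs).symm) h) hc'
  · intro c l L L' C f f' hc hl hf hf' heq
    by_contra hcon
    push Not at hcon
    exact hc (zero_of hl hcon hf (tend0 hcon hf') heq)

end Pool.Agent.K3h51.SB
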