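import Pool.Agent.K3h76.SB.StmA

/-! # Bricks RATIO, SINM (helper51) -/

set_option autoImplicit false

namespace Pool.Agent.K3h51.SB

open Pool.Agent.K3h76.SB Real Set

/-- `sin (l u) / sin u` is decreasing -/
theorem key {l z y : ℝ} (hl : 1 < l) (hz : 0 < z) (hzy : z < y) (hy : l * y < π) :
    sin (l * y) * sin z < sin (l * z) * sin y := by
  have hl0 : 0 < l := by linarith
  set b := π / l with hb
  have hlb : l * b = π := by rw [hb]; field_simp
  have hbpos : 0 < b := by positivity
  have hyb : y < b := by
    rw [hb, lt_div_iff₀ hl0]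
    linarith
  have hbpi : b < π := by
    rw [hb, div_lt_iff₀ hl0]
    nlinarith [pi_pos]
  -- the numerator of the derivative
  have hN : StrictAntiOn (fun u => l * cos (l * u) * sin u - sin (l * u) * cos u) (Icc 0 b) := by
    apply strictAntiOn_of_deriv_neg (convex_Icc 0 b)
    · fun_prop
    · intro u hu
      rw [interior_Icc] at hu
      have h1 : HasDerivAt (fun u => l * cos (l * u) * sin u - sin (l * u) * cos u)
          ((l * (-sin (l * u) * l) * sin u + l * cos (l * u) * cos u) -
            (cos (l * u) * l * cos u + sin (l * u) * (-sin u))) u := by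
        have a1 : HasDerivAt (fun u : ℝ => l * u) l u := by
          simpa using (hasDerivAt_id u).const_mul l
        have a2 : HasDerivAt (fun u : ℝ => cos (l * u)) (-sin (l * u) * l) u := a1.cos
        have a3 : HasDerivAt (fun u : ℝ => sin (l * u)) (cos (l * u) * l) u := a1.sin
        exact ((a2.const_mul l).mul (hasDerivAt_sin u)).sub (a3.mul (hasDerivAt_cos u))
      rw [h1.deriv]
      have h2 : 0 < sin u := sin_pos_of_pos_of_lt_pi hu.1 (by linarith [hu.2])
      have h3 : 0 < sin (l * u) := by
        apply sin_pos_of_pos_of_lt_pi (mul_pos hl0 hu.1)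
        rw [← hlb]
        exact mul_lt_mul_of_pos_left hu.2 hl0
      have h4 : 0 < (l * l - 1) * (sin (l * u) * sin u) := by
        apply mul_pos _ (mul_pos h3 h2)
        nlinarith
      nlinarith
  have hN0 : ∀ u ∈ Ioo 0 b, l * cos (l * u) * sin u - sin (l * u) * cos u < 0 := by
    intro u hu
    have h1 := hN (left_mem_Icc.mpr hbpos.le) ⟨hu.1.le, hu.2.le⟩ hu.1
    simpa using h1
  have hR : StrictAntiOn (fun u => sin (l * u) / sin u) (Ioo 0 b) := by
    apply strictAntiOn_of_deriv_neg (convex_Ioo 0 b)
    · apply ContinuousOn.div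
      · fun_prop
      · fun_prop
      · intro u hu
        exact (sin_pos_of_pos_of_lt_pi hu.1 (by linarith [hu.2])).ne'
    · intro u hu
      rw [interior_Ioo] at hu
      have h2 : 0 < sin u := sin_pos_of_pos_of_lt_pi hu.1 (by linarith [hu.2])
      have a1 : HasDerivAt (fun u : ℝ => l * u) l u := by
        simpa using (hasDerivAt_id u).const_mul l
      have a3 : HasDerivAt (fun u : ℝ => sin (l * u)) (cos (l * u) * l) u := a1.sin
      have h1 : HasDerivAt (fun u => sin (l * u) / sin u)
          ((cos (l * u) * l * sin u - sin (l * u) * cos u) / sin u ^ 2) u :=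
        a3.div (hasDerivAt_sin u) h2.ne'
      rw [h1.deriv]
      apply div_neg_of_neg_of_pos _ (by positivity)
      have h3 := hN0 u hu
      linarith
  have h1 := hR ⟨hz, by linarith⟩ ⟨by linarith, hyb⟩ hzy
  have hsz : 0 < sin z := sin_pos_of_pos_of_lt_pi hz (by linarith)
  have hsy : 0 < sin y := sin_pos_of_pos_of_lt_pi (by linarith) (by linarith)
  simp only at h1
  rwa [div_lt_div_iff₀ hsy hsz] at h1

theorem t_RATIO : S_RATIO := by
  intro k1 k2 r r' hk1 hk12 hk2 hr hr1 hr' hr1' h
  have aux : ∀ r r' : ℝ, 0 < r → r < r' → r' < 1 →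
      sin (π * r' * k2) * sin (π * r * k1) < sin (π * r * k2) * sin (π * r' * k1) := by
    intro r r' hr hrr hr'
    have h1 := key (l := k2 / k1) (z := π * r * k1) (y := π * r' * k1)
      (by rw [lt_div_iff₀ hk1]; linarith) (by positivity)
      (by
        have : π * r < π * r' := mul_lt_mul_of_pos_left hrr pi_pos
        exact mul_lt_mul_of_pos_right this hk1)
      (by
        have e : k2 / k1 * (π * r' * k1) = π * (r' * k2) := by field_simp
        rw [e]
        have : r' * k2 < 1 := by nlinarith
        nlinarith [pi_pos])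
    have e1 : k2 / k1 * (π * r' * k1) = π * r' * k2 := by field_simp
    have e2 : k2 / k1 * (π * r * k1) = π * r * k2 := by field_simp
    rw [e1, e2] at h1
    exact h1
  rcases lt_trichotomy r r' with h1 | h1 | h1
  · have := aux r r' hr h1 hr1'
    nlinarith
  · exact h1
  · have := aux r' r hr' h1 hr1
    nlinarith

theorem t_SINM : S_SINM := by
  have aux : ∀ a b c d : ℕ, 2 ≤ a → 2 ≤ c → a ≤ b → c ≤ d → a * b = c * d → a + b < c + d →
      sn c d < sn a b := by
    intro a b c d ha hc hab hcd hP hS
    have hca : c < a := by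
      by_contra h
      push Not at h
      by_cases h2 : c ≤ b
      · nlinarith [Nat.mul_le_mul h h2]
      · push Not at h2
        nlinarith
    have hbd : b < d := by
      by_contra h
      push Not at h
      nlinarith
    have hc0 : (0 : ℝ) < c := by exact_mod_cast (by omega : 0 < c)
    have ha0 : (0 : ℝ) < a := by exact_mod_cast (by omega : 0 < a)
    have hb0 : (0 : ℝ) < b := by exact_mod_cast (by omega : 0 < b)
    have hd0 : (0 : ℝ) < d := by exact_mod_cast (by omega : 0 < d)
    have hP' : (a : ℝ) * b = c * d := by exact_mod_cast hP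
    have had : (a : ℝ) < d := by exact_mod_cast (by omega : a < d)
    have h1 := key (l := (a : ℝ) / c) (z := π / d) (y := π / a)
      (by
        rw [lt_div_iff₀ hc0, one_mul]
        exact_mod_cast hca) (by positivity)
      (div_lt_div_of_pos_left pi_pos ha0 had)
      (by
        have e : (a : ℝ) / c * (π / a) = π / c := by field_simp
        rw [e, div_lt_iff₀ hc0]
        have : (2 : ℝ) ≤ c := by exact_mod_cast hc
        nlinarith [pi_pos])
    have e1 : (a : ℝ) / c * (π / a) = π / c := by field_simp
    have e2 : (a : ℝ) / c * (π / d) = π / b := by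
      field_simp
      linarith
    rw [e1, e2] at h1
    unfold sn
    linarith
  intro a b c d ha hb hc hd hP hS
  have hcomm : ∀ a b : ℕ, sn a b = sn b a := fun a b => by
    unfold sn
    ring
  rcases le_total a b with hab | hab <;> rcases le_total c d with hcd | hcd
  · exact aux a b c d ha hc hab hcd hP hS
  · rw [hcomm c d]
    exact aux a b d c ha hd hab hcd (by rw [hP, mul_comm]) (by omega)
  · rw [hcomm a b]
    exact aux b a c d hb hc hab hcd (by rw [mul_comm, hP]) (by omega)
  · rw [hcomm a b, hcomm c d]
    exact aux b a d c hb hd hab hcd (by rw [mul_comm, hP, mul_comm]) (by omega)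

end Pool.Agent.K3h51.SB
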